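import Mathlib

/-!
# Polydisks do not maximise the capacity ratios of convex toric domains (MP_d1c05b_gt)

Let `k < n` and let `X` be the polydisk `P` cut off by the ball `∑ π |z_i|² ≤ k`.  Every vector
`v ∈ ℕⁿ` with `∑ v_i = k` has at most `k` entries different from zero, so `∑ v_i π |z_i|²` has the
same maximum `k` over `X` and over `P`, although the volume of `X` is smaller.  By the theorem of
Gutt and Hutchings the minimum over all `v` of these maxima is the `k`-th capacity.  For `n ≥ 5` the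
polydisk is at least as good as all ellipsoids for all `k ≥ n - 1`, so `κ(n) ≤ n - 1`.
-/

set_option autoImplicit false

namespace Pool.Agent.Results.MP_d1c05b_gt.TruncatedPolydisk

open MeasureTheory

/-- `(π |z_1|², …, π |z_n|²)` -/
noncomputable def moment {n : ℕ} (z : Fin n → ℂ) : Fin n → ℝ := fun i => Real.pi * ‖z i‖ ^ 2

/-- Convex toric domains in `ℂⁿ`: the closure of a non-empty open set which is invariant under
coordinatewise rotation, of the form `{z | (π |z_1|², …, π |z_n|²) ∈ Ω}`, where the set of all `x`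
with `(|x_1|, …, |x_n|) ∈ Ω` is compact and convex. -/
def IsConvexToricDomain {n : ℕ} (B : Set (Fin n → ℂ)) : Prop :=
  (∃ U : Set (Fin n → ℂ), IsOpen U ∧ U.Nonempty ∧
    (∀ z ∈ U, ∀ u : Fin n → ℂ, (∀ i, ‖u i‖ = 1) → (fun i => u i * z i) ∈ U) ∧ B = closure U) ∧
  ∃ Ω : Set (Fin n → ℝ), (∀ x ∈ Ω, ∀ i, 0 ≤ x i) ∧ B = {z | moment z ∈ Ω} ∧
    IsCompact {x : Fin n → ℝ | (fun i => |x i|) ∈ Ω} ∧
    Convex ℝ {x : Fin n → ℝ | (fun i => |x i|) ∈ Ω}

/-- The number `min_v max_{z ∈ B} ∑ v_i π |z_i|²`, `v ∈ ℕⁿ` with `∑ v_i = k`.  By the theorem of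
Gutt and Hutchings it is the value of their `k`-th capacity on a convex toric domain `B`. -/
noncomputable def cap {n : ℕ} (k : ℕ) (B : Set (Fin n → ℂ)) : ENNReal :=
  ⨅ (v : Fin n → ℕ) (_ : ∑ i, v i = k), ⨆ z ∈ B, ENNReal.ofReal (∑ i, (v i : ℝ) * moment z i)

/-- the integral of `ωⁿ` over `B`: `n!` times the Lebesgue measure -/
noncomputable def vol {n : ℕ} (B : Set (Fin n → ℂ)) : ℝ := n.factorial * (volume B).toReal

/-- the capacity ratio `c_k(B) / vol(B)^(1/n)` -/
noncomputable def ratio {n : ℕ} (k : ℕ) (B : Set (Fin n → ℂ)) : ℝ :=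
  (cap k B).toReal / vol B ^ ((1 : ℝ) / n)

/-- the polydisk `P(1, …, 1)` -/
def polydisk (n : ℕ) : Set (Fin n → ℂ) := {z | ∀ i, moment z i ≤ 1}

/-- the polydisk cut off by the ball `∑ π |z_i|² ≤ k` -/
def cut (n k : ℕ) : Set (Fin n → ℂ) := {z | (∀ i, moment z i ≤ 1) ∧ ∑ i, moment z i ≤ k}

/-- `M_k(n)`, the maximum of the `k`-th capacity ratio over the ellipsoids: with `k = q n + r`,
`1 ≤ r ≤ n`, it is `(q + 1)^((n - r + 1) / n) (q + 2)^((r - 1) / n)`. -/
noncomputable def ellipsoidMax (n k : ℕ) : ℝ :=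
  ((((k - 1) / n + 1 : ℕ) : ℝ) ^ (n - (k - 1) % n) * (((k - 1) / n + 2 : ℕ) : ℝ) ^ ((k - 1) % n)) ^
    ((1 : ℝ) / n)

lemma moment_nonneg {n : ℕ} (z : Fin n → ℂ) (i : Fin n) : 0 ≤ moment z i :=
  mul_nonneg Real.pi_pos.le (sq_nonneg _)

lemma continuous_moment {n : ℕ} (i : Fin n) : Continuous fun z : Fin n → ℂ => moment z i := by
  unfold moment
  fun_prop

lemma continuous_sum {n : ℕ} : Continuous fun z : Fin n → ℂ => ∑ i, moment z i :=
  continuous_finsetSum _ fun i _ => continuous_moment i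

/-- a point with prescribed moment -/
noncomputable def pt {n : ℕ} (x : Fin n → ℝ) : Fin n → ℂ := fun i => ((√(x i / Real.pi) : ℝ) : ℂ)

lemma moment_pt {n : ℕ} (x : Fin n → ℝ) (hx : ∀ i, 0 ≤ x i) (i : Fin n) : moment (pt x) i = x i := by
  unfold moment pt
  rw [Complex.norm_real, Real.norm_eq_abs, sq_abs, Real.sq_sqrt (div_nonneg (hx i) Real.pi_pos.le)]
  field_simp

lemma moment_smul {n : ℕ} (c : ℝ) (z : Fin n → ℂ) (i : Fin n) :
    moment (fun j => (c : ℂ) * z j) i = c ^ 2 * moment z i := by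
  unfold moment
  rw [norm_mul, Complex.norm_real, Real.norm_eq_abs, mul_pow, sq_abs]
  ring

lemma moment_rot {n : ℕ} (u z : Fin n → ℂ) (hu : ∀ i, ‖u i‖ = 1) (i : Fin n) :
    moment (fun j => u j * z j) i = moment z i := by
  unfold moment
  rw [norm_mul, hu i, one_mul]

/-- both domains at once: the polydisk is the case `s ≥ n` -/
lemma convexToric {n : ℕ} (s : ℝ) (hs : 0 < s) :
    IsConvexToricDomain {z : Fin n → ℂ | (∀ i, moment z i ≤ 1) ∧ ∑ i, moment z i ≤ s} := by
  refine ⟨⟨{z | (∀ i, moment z i < 1) ∧ ∑ i, moment z i < s}, ?_, ⟨fun _ => 0, ?_⟩, ?_, ?_⟩,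
    {x | (∀ i, 0 ≤ x i) ∧ (∀ i, x i ≤ 1) ∧ ∑ i, x i ≤ s}, fun x hx => hx.1, ?_, ?_, ?_⟩
  · have h1 : IsOpen {z : Fin n → ℂ | ∀ i, moment z i < 1} := by
      rw [Set.ofPred_forall]
      exact isOpen_iInter_of_finite fun i => isOpen_lt (continuous_moment i) continuous_const
    exact h1.inter (isOpen_lt continuous_sum continuous_const)
  · refine ⟨fun i => ?_, ?_⟩
    · simp [moment]
    · simpa [moment] using hs
  · rintro z ⟨h1, h2⟩ u hu
    refine ⟨fun i => by rw [moment_rot u z hu]; exact h1 i, ?_⟩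
    simp_rw [moment_rot u z hu]
    exact h2
  · apply Set.Subset.antisymm
    · rintro z ⟨h1, h2⟩
      rw [mem_closure_iff_seq_limit]
      refine ⟨fun m i => (((1 - 1 / ((m : ℝ) + 1)) : ℝ) : ℂ) * z i, fun m => ?_, ?_⟩
      · have hm : (0 : ℝ) < 1 / ((m : ℝ) + 1) := by positivity
        have hm1 : 1 / ((m : ℝ) + 1) ≤ 1 := by
          rw [div_le_one (by positivity)]
          linarith [(Nat.cast_nonneg m : (0 : ℝ) ≤ m)]
        have hc : (1 - 1 / ((m : ℝ) + 1)) ^ 2 < 1 := by nlinarith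
        have hc0 : 0 ≤ (1 - 1 / ((m : ℝ) + 1)) ^ 2 := sq_nonneg _
        refine ⟨fun i => ?_, ?_⟩
        · rw [moment_smul]
          nlinarith [h1 i, moment_nonneg z i]
        · simp_rw [moment_smul, ← Finset.mul_sum]
          have : 0 ≤ ∑ i, moment z i := Finset.sum_nonneg fun i _ => moment_nonneg z i
          nlinarith
      · rw [tendsto_pi_nhds]
        intro i
        have h3 : Filter.Tendsto (fun m : ℕ => (((1 - 1 / ((m : ℝ) + 1)) : ℝ) : ℂ)) Filter.atTop
            (nhds ((1 - 0 : ℝ) : ℂ)) :=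
          (Complex.continuous_ofReal.tendsto _).comp
            (tendsto_const_nhds.sub tendsto_one_div_add_atTop_nhds_zero_nat)
        simpa using h3.mul_const (z i)
    · apply closure_minimal
      · rintro z ⟨h1, h2⟩
        exact ⟨fun i => (h1 i).le, h2.le⟩
      · have h1 : IsClosed {z : Fin n → ℂ | ∀ i, moment z i ≤ 1} := by
          rw [Set.ofPred_forall]
          exact isClosed_iInter fun i => isClosed_le (continuous_moment i) continuous_const
        exact h1.inter (isClosed_le continuous_sum continuous_const)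
  · ext z
    exact ⟨fun h => ⟨moment_nonneg z, h.1, h.2⟩, fun h => ⟨h.2.1, h.2.2⟩⟩
  · apply Metric.isCompact_of_isClosed_isBounded
    · have e : {x : Fin n → ℝ | (fun i => |x i|) ∈ {x : Fin n → ℝ | (∀ i, 0 ≤ x i) ∧
          (∀ i, x i ≤ 1) ∧ ∑ i, x i ≤ s}} = (⋂ i, {x : Fin n → ℝ | |x i| ≤ 1}) ∩
          {x | ∑ i, |x i| ≤ s} := by
        ext x
        simp
      rw [e]
      refine (isClosed_iInter fun i => ?_).inter ?_
      · exact isClosed_le (by fun_prop) continuous_const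
      · exact isClosed_le (by fun_prop) continuous_const
    · refine (Metric.isBounded_closedBall (x := (0 : Fin n → ℝ)) (r := 1)).subset ?_
      rintro x ⟨_, h2, _⟩
      rw [mem_closedBall_zero_iff, pi_norm_le_iff_of_nonneg zero_le_one]
      exact fun i => h2 i
  · rintro x ⟨_, hx1, hx2⟩ y ⟨_, hy1, hy2⟩ a b ha hb hab
    have key : ∀ i, |(a • x + b • y) i| ≤ a * |x i| + b * |y i| := by
      intro i
      refine (abs_add_le _ _).trans ?_
      simp only [Pi.smul_apply, smul_eq_mul, abs_mul, abs_of_nonneg ha, abs_of_nonneg hb]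
      exact le_refl _
    refine ⟨fun i => abs_nonneg _, fun i => (key i).trans ?_, ?_⟩
    · have h1 := hx1 i
      have h2 := hy1 i
      simp only at h1 h2
      nlinarith
    · refine (Finset.sum_le_sum fun i _ => key i).trans ?_
      rw [Finset.sum_add_distrib, ← Finset.mul_sum, ← Finset.mul_sum]
      simp only at hx2 hy2
      nlinarith

lemma polydisk_eq (n : ℕ) :
    polydisk n = {z : Fin n → ℂ | (∀ i, moment z i ≤ 1) ∧ ∑ i, moment z i ≤ (n : ℝ)} := by
  ext z
  refine ⟨fun h => ⟨h, ?_⟩, fun h => h.1⟩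
  refine (Finset.sum_le_sum fun i _ => h i).trans ?_
  simp

lemma cap_eq {n k : ℕ} (hn : 0 < n) (s : ℝ)
    (hs : ∀ S : Finset (Fin n), S.card ≤ k → (S.card : ℝ) ≤ s) :
    cap k {z : Fin n → ℂ | (∀ i, moment z i ≤ 1) ∧ ∑ i, moment z i ≤ s} = k := by
  apply le_antisymm
  · refine iInf₂_le_of_le (Pi.single ⟨0, hn⟩ k) (by simp) ?_
    refine iSup₂_le fun z hz => ?_
    rw [← ENNReal.ofReal_natCast]
    apply ENNReal.ofReal_le_ofReal
    calc ∑ i, (((Pi.single ⟨0, hn⟩ k : Fin n → ℕ) i : ℕ) : ℝ) * moment z i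
        ≤ ∑ i, (((Pi.single ⟨0, hn⟩ k : Fin n → ℕ) i : ℕ) : ℝ) * 1 :=
          Finset.sum_le_sum fun i _ => mul_le_mul_of_nonneg_left (hz.1 i) (Nat.cast_nonneg _)
      _ = ((∑ i, (Pi.single ⟨0, hn⟩ k : Fin n → ℕ) i : ℕ) : ℝ) := by simp only [mul_one, Nat.cast_sum]
      _ = k := by simp
  · refine le_iInf₂ fun v hv => ?_
    classical
    obtain ⟨x, hx⟩ : ∃ x : Fin n → ℝ, x = fun i => if v i = 0 then 0 else 1 := ⟨_, rfl⟩
    have hx0 : ∀ i, 0 ≤ x i := by
      intro i
      rw [hx]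
      dsimp only
      split_ifs <;> norm_num
    have hx1 : ∀ i, x i ≤ 1 := by
      intro i
      rw [hx]
      dsimp only
      split_ifs <;> norm_num
    have hsum : ∑ i, x i = ((Finset.univ.filter fun i => v i ≠ 0).card : ℝ) := by
      rw [hx, Finset.card_filter, Nat.cast_sum]
      refine Finset.sum_congr rfl fun i _ => ?_
      by_cases h : v i = 0 <;> simp [h]
    have hcard : (Finset.univ.filter fun i => v i ≠ 0).card ≤ k := by
      rw [← hv, Finset.card_filter]
      refine Finset.sum_le_sum fun i _ => ?_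
      by_cases h : v i = 0
      · simp [h]
      · rw [if_pos h]
        omega
    have hmem : pt x ∈ {z : Fin n → ℂ | (∀ i, moment z i ≤ 1) ∧ ∑ i, moment z i ≤ s} := by
      refine ⟨fun i => ?_, ?_⟩
      · rw [moment_pt x hx0]
        exact hx1 i
      · simp_rw [moment_pt x hx0]
        rw [hsum]
        exact hs _ hcard
    refine le_iSup₂_of_le (pt x) hmem ?_
    rw [← ENNReal.ofReal_natCast]
    apply ENNReal.ofReal_le_ofReal
    rw [← hv, Nat.cast_sum]
    refine Finset.sum_le_sum fun i _ => ?_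
    rw [moment_pt x hx0, hx]
    by_cases h : v i = 0 <;> simp [h]

lemma cap_polydisk {n : ℕ} (hn : 0 < n) (k : ℕ) : cap k (polydisk n) = k := by
  rw [polydisk_eq]
  refine cap_eq hn _ fun S _ => ?_
  have := S.card_le_univ
  rw [Fintype.card_fin] at this
  exact_mod_cast this

lemma cap_cut {n : ℕ} (hn : 0 < n) (k : ℕ) : cap k (cut n k) = k :=
  cap_eq hn _ fun _ hS => by exact_mod_cast hS

lemma volume_polydisk (n : ℕ) : volume (polydisk n) = 1 := by
  have e : polydisk n = Set.pi Set.univ fun _ : Fin n => Metric.closedBall (0 : ℂ) (1 / √Real.pi) := by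
    ext z
    simp only [polydisk, moment, Set.mem_pi, Set.mem_univ, forall_const, mem_closedBall_zero_iff,
      Set.mem_ofPred_eq]
    refine forall_congr' fun i => ?_
    have h1 : 0 < √Real.pi := Real.sqrt_pos.2 Real.pi_pos
    have h2 : √Real.pi ^ 2 = Real.pi := Real.sq_sqrt Real.pi_pos.le
    rw [le_div_iff₀ h1]
    constructor
    · intro h
      nlinarith [norm_nonneg (z i), mul_nonneg (norm_nonneg (z i)) h1.le]
    · intro h
      nlinarith [norm_nonneg (z i), mul_nonneg (norm_nonneg (z i)) h1.le]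
  rw [e, volume_pi_pi]
  simp only [Complex.volume_closedBall, Finset.prod_const]
  have : ENNReal.ofReal (1 / √Real.pi) ^ 2 * (NNReal.pi : ENNReal) = 1 := by
    rw [← ENNReal.ofReal_pow (by positivity), div_pow, one_pow, Real.sq_sqrt Real.pi_pos.le]
    have : (NNReal.pi : ENNReal) = ENNReal.ofReal Real.pi := by
      rw [← NNReal.coe_real_pi, ENNReal.ofReal_coe_nnreal]
    rw [this, ← ENNReal.ofReal_mul (by positivity), one_div, inv_mul_cancel₀ Real.pi_ne_zero,
      ENNReal.ofReal_one]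
  rw [this, one_pow]

lemma volume_cut_lt {n k : ℕ} (hkn : k < n) : volume (cut n k) < volume (polydisk n) := by
  obtain ⟨W, hW⟩ : ∃ W : Set (Fin n → ℂ), W = {z | (∀ i, moment z i < 1) ∧ (k : ℝ) < ∑ i, moment z i} :=
    ⟨_, rfl⟩
  have hWo : IsOpen W := by
    have h1 : IsOpen {z : Fin n → ℂ | ∀ i, moment z i < 1} := by
      rw [Set.ofPred_forall]
      exact isOpen_iInter_of_finite fun i => isOpen_lt (continuous_moment i) continuous_const
    rw [hW]
    exact h1.inter (isOpen_lt continuous_const continuous_sum)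
  have hn : (0 : ℝ) < n := by exact_mod_cast (by omega : 0 < n)
  have hWn : W.Nonempty := by
    refine ⟨pt fun _ => 1 - 1 / (2 * n), ?_⟩
    have h0 : (0 : ℝ) < 1 / (2 * n) := by positivity
    have h1 : 1 / (2 * (n : ℝ)) ≤ 1 := by
      rw [div_le_one (by positivity)]
      have : (1 : ℝ) ≤ n := by exact_mod_cast (by omega : 1 ≤ n)
      linarith
    rw [hW]
    have hp := moment_pt (n := n) (fun _ => 1 - 1 / (2 * (n : ℝ))) (fun _ => by linarith)
    refine ⟨fun i => ?_, ?_⟩
    · rw [hp]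
      linarith
    · simp_rw [hp]
      rw [Finset.sum_const, Finset.card_univ, Fintype.card_fin, nsmul_eq_mul, mul_sub, mul_one]
      have h2 : (n : ℝ) * (1 / (2 * n)) = 1 / 2 := by field_simp
      have h3 : (k : ℝ) + 1 ≤ n := by exact_mod_cast hkn
      rw [h2]
      linarith
  have hpos : 0 < volume W := hWo.measure_pos volume hWn
  have hdis : Disjoint (cut n k) W := by
    rw [Set.disjoint_left, hW]
    rintro z ⟨_, h1⟩ ⟨_, h2⟩
    exact absurd h1 (not_le.2 h2)
  have hsub : cut n k ∪ W ⊆ polydisk n := by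
    rintro z (h | h)
    · exact h.1
    · rw [hW] at h
      exact fun i => (h.1 i).le
  have h1 : volume (cut n k) + volume W ≤ volume (polydisk n) := by
    rw [← measure_union hdis hWo.measurableSet]
    exact measure_mono hsub
  have hfin : volume (cut n k) ≠ ⊤ := by
    refine ne_top_of_le_ne_top ?_ (le_trans le_self_add h1)
    rw [volume_polydisk]
    exact ENNReal.one_ne_top
  exact lt_of_lt_of_le (ENNReal.lt_add_right hfin hpos.ne') h1

lemma volume_cut_pos {n k : ℕ} (hk : 1 ≤ k) : 0 < volume (cut n k) := by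
  have hk' : (1 : ℝ) ≤ k := by exact_mod_cast hk
  have h1 : IsOpen {z : Fin n → ℂ | ∀ i, moment z i < 1} := by
    rw [Set.ofPred_forall]
    exact isOpen_iInter_of_finite fun i => isOpen_lt (continuous_moment i) continuous_const
  have h2 : IsOpen {z : Fin n → ℂ | (∀ i, moment z i < 1) ∧ ∑ i, moment z i < 1} :=
    h1.inter (isOpen_lt continuous_sum continuous_const)
  refine lt_of_lt_of_le (h2.measure_pos volume ⟨fun _ => 0, ?_⟩) (measure_mono ?_)
  · simp [moment]
  · rintro z ⟨h3, h4⟩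
    exact ⟨fun i => (h3 i).le, h4.le.trans hk'⟩

/-- the cut polydisk has a larger capacity ratio -/
theorem ratio_lt {n k : ℕ} (hk : 1 ≤ k) (hkn : k < n) : ratio k (polydisk n) < ratio k (cut n k) := by
  have hn : 0 < n := by omega
  have hlt := volume_cut_lt hkn
  have hfin : volume (polydisk n) ≠ ⊤ := by
    rw [volume_polydisk]
    exact ENNReal.one_ne_top
  have h1 : (volume (cut n k)).toReal < (volume (polydisk n)).toReal :=
    (ENNReal.toReal_lt_toReal hlt.ne_top hfin).2 hlt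
  have h2 : 0 < (volume (cut n k)).toReal := ENNReal.toReal_pos (volume_cut_pos hk).ne' hlt.ne_top
  have hf : (0 : ℝ) < n.factorial := by exact_mod_cast n.factorial_pos
  have h3 : 0 < vol (cut n k) := mul_pos hf h2
  have h4 : vol (cut n k) < vol (polydisk n) := mul_lt_mul_of_pos_left h1 hf
  unfold ratio
  rw [cap_polydisk hn, cap_cut hn]
  have h5 : vol (cut n k) ^ ((1 : ℝ) / n) < vol (polydisk n) ^ ((1 : ℝ) / n) :=
    Real.rpow_lt_rpow h3.le h4 (by positivity)
  have hk' : (0 : ℝ) < ((k : ENNReal)).toReal := by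
    rw [ENNReal.toReal_natCast]
    exact_mod_cast hk
  exact div_lt_div_of_pos_left hk' (Real.rpow_pos_of_pos h3 _) h5

lemma ratio_polydisk {n : ℕ} (hn : 0 < n) (k : ℕ) :
    ratio k (polydisk n) = k / (n.factorial : ℝ) ^ ((1 : ℝ) / n) := by
  unfold ratio vol
  rw [cap_polydisk hn, volume_polydisk, ENNReal.toReal_natCast, ENNReal.toReal_one, mul_one]


lemma bern (K n : ℕ) : K ^ (n + 1) + (n + 1) * K ^ n ≤ (K + 1) ^ (n + 1) := by
  induction n with
  | zero => simp
  | succ n ih =>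
    have h : (K + 1) * (K ^ (n + 1) + (n + 1) * K ^ n) ≤ (K + 1) * (K + 1) ^ (n + 1) :=
      Nat.mul_le_mul_left _ ih
    have e1 : (K + 1) * (K ^ (n + 1) + (n + 1) * K ^ n) =
        K ^ (n + 1 + 1) + (n + 1 + 1) * K ^ (n + 1) + (n + 1) * K ^ n := by ring
    have e2 : (K + 1) * (K + 1) ^ (n + 1) = (K + 1) ^ (n + 1 + 1) := by ring
    rw [e1, e2] at h
    exact le_trans (Nat.le_add_right _ _) h

lemma base (n : ℕ) (hn : 5 ≤ n) : 2 ^ (n - 2) * n.factorial ≤ (n - 1) ^ n := by
  induction n, hn using Nat.le_induction with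
  | base => decide
  | succ n hn ih =>
    have h1 : 2 * (n + 1) * (n - 1) ^ n ≤ n ^ (n + 1) := by
      have h5 : (5 : ℝ) ≤ n := by exact_mod_cast hn
      have h2 : (1 - 1 / (n : ℝ)) ^ n ≤ Real.exp (-1) :=
        Real.one_sub_div_pow_le_exp_neg (by linarith)
      have h3 : ((n : ℝ) - 1) ^ n ≤ n ^ n * Real.exp (-1) := by
        have e : ((n : ℝ) - 1) ^ n = n ^ n * (1 - 1 / (n : ℝ)) ^ n := by
          rw [← mul_pow]
          congr 1
          field_simp
        rw [e]
        exact mul_le_mul_of_nonneg_left h2 (by positivity)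
      have h4 : 2 * ((n : ℝ) + 1) * Real.exp (-1) ≤ n := by
        rw [Real.exp_neg, ← div_eq_mul_inv, div_le_iff₀ (Real.exp_pos 1)]
        have := Real.exp_one_gt_d9
        nlinarith
      have h6 : (2 * (n + 1) * ((n : ℝ) - 1) ^ n : ℝ) ≤ n ^ (n + 1) := by
        calc (2 * (n + 1) * ((n : ℝ) - 1) ^ n : ℝ) ≤ 2 * (n + 1) * (n ^ n * Real.exp (-1)) :=
              mul_le_mul_of_nonneg_left h3 (by positivity)
          _ = n ^ n * (2 * ((n : ℝ) + 1) * Real.exp (-1)) := by ring
          _ ≤ n ^ n * n := mul_le_mul_of_nonneg_left h4 (by positivity)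
          _ = n ^ (n + 1) := by ring
      have h7 : ((2 * (n + 1) * (n - 1) ^ n : ℕ) : ℝ) ≤ ((n ^ (n + 1) : ℕ) : ℝ) := by
        push_cast [Nat.cast_sub (by omega : 1 ≤ n)]
        exact h6
      exact_mod_cast h7
    calc 2 ^ (n + 1 - 2) * (n + 1).factorial = 2 * (n + 1) * (2 ^ (n - 2) * n.factorial) := by
          rw [Nat.factorial_succ, show n + 1 - 2 = (n - 2) + 1 by omega, pow_succ]
          ring
      _ ≤ 2 * (n + 1) * (n - 1) ^ n := Nat.mul_le_mul_left _ ih
      _ ≤ n ^ (n + 1) := h1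
      _ = (n + 1 - 1) ^ (n + 1) := by rw [Nat.add_sub_cancel]

lemma step {n q m : ℕ} (hm : m < n)
    (h : (q + 1) ^ (n - m) * (q + 2) ^ m * n.factorial ≤ (q * n + m + 1) ^ n) :
    (q + 1) ^ (n - (m + 1)) * (q + 2) ^ (m + 1) * n.factorial ≤ (q * n + (m + 1) + 1) ^ n := by
  obtain ⟨K, hK⟩ : ∃ K, K = q * n + m + 1 := ⟨_, rfl⟩
  rw [← hK] at h
  rw [show q * n + (m + 1) + 1 = K + 1 by omega]
  have hKn : K ≤ (q + 1) * n := by
    rw [hK]
    nlinarith
  have h1 : (q + 2) * K ^ n ≤ (q + 1) * (K + 1) ^ n := by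
    obtain ⟨l, rfl⟩ : ∃ l, n = l + 1 := ⟨n - 1, by omega⟩
    have h2 := Nat.mul_le_mul_left (q + 1) (bern K l)
    have h3 : K ^ (l + 1) ≤ (q + 1) * ((l + 1) * K ^ l) := by
      rw [pow_succ, ← mul_assoc, mul_comm (K ^ l) K]
      exact Nat.mul_le_mul_right _ hKn
    calc (q + 2) * K ^ (l + 1) = (q + 1) * K ^ (l + 1) + K ^ (l + 1) := by ring
      _ ≤ (q + 1) * K ^ (l + 1) + (q + 1) * ((l + 1) * K ^ l) := by omega
      _ = (q + 1) * (K ^ (l + 1) + (l + 1) * K ^ l) := by ring
      _ ≤ _ := h2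
  have h4 : (q + 1) * ((q + 1) ^ (n - (m + 1)) * (q + 2) ^ (m + 1) * n.factorial) ≤
      (q + 1) * (K + 1) ^ n := by
    calc (q + 1) * ((q + 1) ^ (n - (m + 1)) * (q + 2) ^ (m + 1) * n.factorial)
        = (q + 2) * ((q + 1) ^ (n - m) * (q + 2) ^ m * n.factorial) := by
          rw [show n - m = (n - (m + 1)) + 1 by omega, pow_succ, pow_succ]
          ring
      _ ≤ (q + 2) * K ^ n := Nat.mul_le_mul_left _ h
      _ ≤ _ := h1
  exact Nat.le_of_mul_le_mul_left h4 (by omega)

lemma ineq (n : ℕ) (hn : 5 ≤ n) (q : ℕ) : ∀ m ≤ n, (q = 0 → n - 2 ≤ m) →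
    (q + 1) ^ (n - m) * (q + 2) ^ m * n.factorial ≤ (q * n + m + 1) ^ n := by
  induction q with
  | zero =>
    intro m hm h0
    have h1 := h0 rfl
    induction m, h1 using Nat.le_induction with
    | base =>
      have := base n hn
      simpa [show n - 2 + 1 = n - 1 by omega] using this
    | succ m hm' ih => exact step (by omega) (ih (by omega) (fun _ => hm'))
  | succ q ih =>
    intro m hm _
    induction m with
    | zero =>
      have h := ih n le_rfl (fun _ => by omega)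
      have e : (q + 1) * n + 0 + 1 = q * n + n + 1 := by ring
      rw [e]
      simpa using h
    | succ m ihm => exact step (by omega) (ihm (by omega) (fun h => absurd h (by omega)))

/-- for `n ≥ 5` and `k ≥ n - 1` the polydisk is at least as good as all ellipsoids -/
theorem ellipsoidMax_le {n k : ℕ} (hn : 5 ≤ n) (hk : n - 1 ≤ k) :
    ellipsoidMax n k ≤ ratio k (polydisk n) := by
  have hn0 : 0 < n := by omega
  rw [ratio_polydisk hn0]
  have hf : (0 : ℝ) < n.factorial := by exact_mod_cast n.factorial_pos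
  rw [le_div_iff₀ (Real.rpow_pos_of_pos hf _)]
  unfold ellipsoidMax
  rw [← Real.mul_rpow (by positivity) hf.le]
  obtain ⟨q, hq⟩ : ∃ q, q = (k - 1) / n := ⟨_, rfl⟩
  obtain ⟨m, hm⟩ : ∃ m, m = (k - 1) % n := ⟨_, rfl⟩
  have hdiv : n * q + m = k - 1 := by
    rw [hq, hm]
    exact Nat.div_add_mod _ _
  have hmn : m < n := by
    rw [hm]
    exact Nat.mod_lt _ hn0
  rw [← hq, ← hm]
  have h := ineq n hn q m hmn.le (fun h0 => by
    rw [h0] at hdiv
    omega)
  rw [show q * n + m + 1 = k by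
    have : q * n = n * q := mul_comm _ _
    omega] at h
  have h' : ((q + 1 : ℕ) : ℝ) ^ (n - m) * ((q + 2 : ℕ) : ℝ) ^ m * n.factorial ≤ (k : ℝ) ^ n := by
    exact_mod_cast h
  calc (((q + 1 : ℕ) : ℝ) ^ (n - m) * ((q + 2 : ℕ) : ℝ) ^ m * n.factorial) ^ ((1 : ℝ) / n)
      ≤ ((k : ℝ) ^ n) ^ ((1 : ℝ) / n) := Real.rpow_le_rpow (by positivity) h' (by positivity)
    _ = k := by
      rw [one_div]
      exact Real.pow_rpow_inv_natCast (Nat.cast_nonneg k) hn0.ne'

/-- **Theorem.** Let `1 ≤ k < n`.  The polydisk `P(1, …, 1)` and its part `X` with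
`∑ π |z_i|² ≤ k` are convex toric domains in `ℂⁿ` on which `min_v max_z ∑ v_i π |z_i|²` (`v ∈ ℕⁿ`,
`∑ v_i = k`; the `k`-th Gutt-Hutchings capacity) has the same value `k`, and `X` has the larger
capacity ratio.  For `n ≥ 5` and all `k ≥ n - 1` the capacity ratio of the polydisk is at least the
maximum `M_k(n)` over the ellipsoids, so `κ(n) ≤ n - 1` and the polydisk is not a maximiser for
`κ(n) ≤ k ≤ n - 1`. -/
theorem result :
    (∀ n k : ℕ, 1 ≤ k → k < n → IsConvexToricDomain (polydisk n) ∧ IsConvexToricDomain (cut n k) ∧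
      cap k (polydisk n) = k ∧ cap k (cut n k) = k ∧ ratio k (polydisk n) < ratio k (cut n k)) ∧
    ∀ n k : ℕ, 5 ≤ n → n - 1 ≤ k → ellipsoidMax n k ≤ ratio k (polydisk n) := by
  refine ⟨fun n k hk hkn => ?_, fun n k hn hk => ellipsoidMax_le hn hk⟩
  have hn : 0 < n := by omega
  refine ⟨?_, convexToric k (by exact_mod_cast hk), cap_polydisk hn k, cap_cut hn k,
    ratio_lt hk hkn⟩
  rw [polydisk_eq]
  exact convexToric n (by exact_mod_cast hn)


end Pool.Agent.Results.MP_d1c05b_gt.TruncatedPolydisk
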